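import Pool.Agent.Q187.PS.Stm

/-!
# Project PS, job LOWC: the lower bound for the perimeter
-/

set_option autoImplicit false
set_option linter.unusedVariables false

open MeasureTheory Set Filter Topology Metric
open scoped RealInnerProductSpace ENNReal NNReal

namespace Pool.Agent.Q251.PS

open Q187.PS

lemma th_continuous : Continuous th := by
  unfold th
  exact Real.smoothTransition.continuous.comp (by fun_prop)

lemma th_nonneg (s : ℝ) : 0 ≤ th s := Real.smoothTransition.nonneg _

lemma th_le_one (s : ℝ) : th s ≤ 1 := Real.smoothTransition.le_one _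

lemma th_zero {s : ℝ} (hs : s ≤ 1) : th s = 0 :=
  Real.smoothTransition.zero_of_nonpos (by linarith)

lemma th_one {s : ℝ} (hs : 7 ≤ s) : th s = 1 :=
  Real.smoothTransition.one_of_one_le (by linarith)

lemma kk_meas (m : ℕ) : Measurable (kk m) := by
  unfold kk
  exact ((th_continuous.measurable.mul (Real.continuous_sqrt.measurable.pow_const m))).div measurable_id

lemma bb_meas (r : ℝ) : Measurable (bb r) := by
  unfold bb
  refine th_continuous.measurable.mul (Measurable.sub ?_ measurable_const)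
  exact measurable_const.div Real.continuous_sqrt.measurable

lemma kk_bound (m : ℕ) {s : ℝ} (hs : s ≤ 9) : |kk m s| ≤ 3 ^ m := by
  unfold kk
  rcases le_total s 1 with h | h
  · rw [th_zero h, zero_mul, zero_div, abs_zero]
    positivity
  · have h1 : √s ≤ 3 := by
      rw [Real.sqrt_le_left (by norm_num)]
      linarith
    have h0 := Real.sqrt_nonneg s
    have h2 : (√s) ^ m ≤ 3 ^ m := by gcongr
    have h3 := th_nonneg s
    have h4 := th_le_one s
    rw [abs_of_nonneg (by positivity), div_le_iff₀ (by linarith)]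
    calc th s * (√s) ^ m ≤ 1 * 3 ^ m := by gcongr
      _ = 3 ^ m * 1 := by ring
      _ ≤ 3 ^ m * s := by gcongr

lemma bb_bound {r s : ℝ} (hr : 3 ≤ r) : |bb r s| ≤ 2 := by
  unfold bb
  rcases le_total s 1 with h | h
  · rw [th_zero h, zero_mul, abs_zero]
    norm_num
  · have h1 : 1 ≤ √s := by
      rw [Real.one_le_sqrt]
      exact h
    have h2 : 1 / √s ≤ 1 := by
      rw [div_le_one (by linarith)]
      exact h1
    have h3 : 0 ≤ 1 / √s := by positivity
    have h4 : 1 / r ≤ 1 := by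
      rw [div_le_one (by linarith)]
      linarith
    have h5 : 0 ≤ 1 / r := by positivity
    rw [abs_mul, abs_of_nonneg (th_nonneg s)]
    have h6 : |1 / √s - 1 / r| ≤ 2 := by
      rw [abs_le]
      constructor <;> linarith
    calc th s * |1 / √s - 1 / r| ≤ 1 * 2 := mul_le_mul (th_le_one s) h6 (abs_nonneg _) zero_le_one
      _ = 2 := by norm_num

lemma bv_pos (m : ℕ) : 0 < bv m := by
  unfold bv
  refine ENNReal.toReal_pos ?_ ?_
  · exact (measure_closedBall_pos volume _ one_pos).ne'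
  · exact measure_closedBall_lt_top.ne

lemma hh_meas (m : ℕ) (r : ℝ) {g : V2 → ℝ} (hg : Continuous g) : Measurable (hh m r g) := by
  have h1 : Measurable fun v : V2 => fderiv ℝ g v v := by
    have h2 : Measurable fun v : V2 => (fderiv ℝ g v, v) := (measurable_fderiv ℝ g).prodMk measurable_id
    exact (isBoundedBilinearMap_apply (𝕜 := ℝ) (E := V2) (F := ℝ)).continuous.measurable.comp h2
  have hs : Measurable fun v : V2 => g v - 9 := hg.measurable.sub_const 9
  have hk := (kk_meas m).comp hs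
  have hb := (bb_meas r).comp hs
  have hq : Measurable fun v : V2 => (√(g v - 9)) ^ m := (Real.continuous_sqrt.measurable.comp hs).pow_const m
  unfold hh
  exact (((hk.mul h1).const_mul _).add (hq.mul hb)).const_mul _

lemma crit_meas {g : V2 → ℝ} (hg : Continuous g) {J : Set ℝ} (hJ : MeasurableSet J) : MeasurableSet (crit g J) := by
  have h1 : crit g J = g ⁻¹' J ∩ (fderiv ℝ g) ⁻¹' {0} := rfl
  rw [h1]
  exact (hg.measurable hJ).inter ((measurable_fderiv ℝ g) (measurableSet_singleton _))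

lemma Eg_meas (m : ℕ) {g : V2 → ℝ} (hg : Continuous g) (c : ℝ) : MeasurableSet (Eg m g c) := by
  apply IsClosed.measurableSet
  have h1 : Continuous fun x : XX m => x.fst := by fun_prop
  have h2 : Continuous fun x : XX m => x.snd := by fun_prop
  exact isClosed_le ((h2.norm.pow 2).add continuous_const) (hg.comp h1)

theorem lowC : S_Appr → S_LowA → S_LowB → S_LowC := by
  intro hAppr hA hB m hm
  have hbv := bv_pos m
  have hm1 : (1 : ℝ) ≤ m := by exact_mod_cast hm
  have h7 : (0 : ℝ) < √7 := Real.sqrt_pos.2 (by norm_num)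
  have h88 : √(9 - 1 / 8) < 3 := by
    rw [Real.sqrt_lt' (by norm_num)]
    norm_num
  set δ₁ : ℝ := m * bv m * (√7 ^ (m - 1) * (1 - √(9 - 1 / 8) / 3)) / 2 with hδ₁
  have hpos : 0 < 1 - √(9 - 1 / 8) / 3 := by
    have : √(9 - 1 / 8) / 3 < 1 := by
      rw [div_lt_one (by norm_num)]
      exact h88
    linarith
  have hδ₁0 : 0 < δ₁ := by positivity
  refine ⟨δ₁ / 2, by positivity, ?_⟩
  intro L ρ₀ g hL hρ₀ hg hvol ρ r hρ hρr hr hsub
  have hr0 : 0 < r := by linarith
  have hgc := hg.continuous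
  set F : Set V2 := crit g (Icc 16 (18 - 1 / 8)) with hF
  have hFm : MeasurableSet F := crit_meas hgc measurableSet_Icc
  have hFb : F ⊆ closedBall 0 ρ₀ := by
    intro v hv
    rw [mem_closedBall_zero_iff]
    by_contra h
    have h1 := hg.out v (not_le.1 h)
    have h2 : (16 : ℝ) ≤ g v := hv.1.1
    rw [h1] at h2
    norm_num at h2
  have hFbd : Bornology.IsBounded F := isBounded_closedBall.subset hFb
  have hFfin : volume F ≠ ⊤ := (lt_of_le_of_lt (measure_mono hFb) measure_closedBall_lt_top).ne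
  -- the bound
  set C : ℝ := m * bv m * (1 / (2 * r) * (3 ^ m * (L * ρ₀)) + 3 ^ m * 2) with hC
  have hhm : Measurable (hh m r g) := hh_meas m r hgc
  have hhb : ∀ v, |hh m r g v| ≤ C := by
    intro v
    have hs9 : g v - 9 ≤ 9 := by linarith [hg.le v]
    have b1 := kk_bound m hs9
    have b2 : |bb r (g v - 9)| ≤ 2 := bb_bound hr
    have b3 : |fderiv ℝ g v v| ≤ L * ρ₀ := by
      rcases le_total ‖v‖ ρ₀ with h | h
      · exact (hg.fderiv_le hL v v).trans (mul_le_mul_of_nonneg_left h hL)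
      · rcases h.lt_or_eq with h' | h'
        · rw [hg.fderiv_out h']
          simp
          positivity
        · exact (hg.fderiv_le hL v v).trans (by rw [h'])
    have b4 : |(√(g v - 9)) ^ m| ≤ 3 ^ m := by
      rw [abs_of_nonneg (by positivity)]
      have : √(g v - 9) ≤ 3 := by
        rw [Real.sqrt_le_left (by norm_num)]
        linarith
      gcongr
    unfold hh
    rw [abs_mul, abs_of_nonneg (by positivity)]
    refine mul_le_mul_of_nonneg_left ?_ (by positivity)
    refine (abs_add_le _ _).trans (add_le_add ?_ ?_)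
    · rw [abs_mul, abs_mul, abs_of_nonneg (by positivity : (0 : ℝ) ≤ 1 / (2 * r))]
      gcongr
    · rw [abs_mul]
      gcongr
  -- the lower bound on `F`
  have hlow : ∀ v ∈ F, 2 * δ₁ ≤ hh m r g v := by
    intro v hv
    have hv1 : (16 : ℝ) ≤ g v := hv.1.1
    have hv2 : g v ≤ 18 - 1 / 8 := hv.1.2
    have hv3 : fderiv ℝ g v = 0 := hv.2
    unfold hh
    rw [hv3]
    have e1 : th (g v - 9) = 1 := th_one (by linarith)
    have hq0 : 0 < √(g v - 9) := Real.sqrt_pos.2 (by linarith)
    have hq1 : √7 ≤ √(g v - 9) := Real.sqrt_le_sqrt (by linarith)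
    have hq2 : √(g v - 9) ≤ √(9 - 1 / 8) := Real.sqrt_le_sqrt (by linarith)
    have e2 : (√(g v - 9)) ^ m * bb r (g v - 9) = √(g v - 9) ^ (m - 1) * (1 - √(g v - 9) / r) := by
      unfold bb
      rw [e1]
      obtain ⟨n, rfl⟩ : ∃ n, m = n + 1 := ⟨m - 1, by omega⟩
      rw [Nat.add_sub_cancel, pow_succ]
      field_simp
    have e3 : 2 * δ₁ = m * bv m * (√7 ^ (m - 1) * (1 - √(9 - 1 / 8) / 3)) := by rw [hδ₁]; ring
    rw [e3]
    refine mul_le_mul_of_nonneg_left ?_ (by positivity)
    rw [e2]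
    have h9 : √(g v - 9) / r ≤ √(9 - 1 / 8) / 3 := by
      apply div_le_div₀ (Real.sqrt_nonneg _) hq2 (by norm_num) hr
    have h10 : √7 ^ (m - 1) ≤ √(g v - 9) ^ (m - 1) := pow_le_pow_left₀ h7.le hq1 _
    have h11 : √7 ^ (m - 1) * (1 - √(9 - 1 / 8) / 3) ≤ √(g v - 9) ^ (m - 1) * (1 - √(g v - 9) / r) :=
      mul_le_mul h10 (by linarith) hpos.le (by positivity)
    simpa using h11
  have hint : IntegrableOn (hh m r g) F := by
    apply Measure.integrableOn_of_bounded (M := C) hFfin hhm.aestronglyMeasurable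
    exact Eventually.of_forall fun v => by rw [Real.norm_eq_abs]; exact hhb v
  have hFint : δ₁ ≤ ∫ v in F, hh m r g v := by
    have h1 : ∫ v in F, (2 * δ₁ : ℝ) ≤ ∫ v in F, hh m r g v :=
      setIntegral_mono_on (integrableOn_const hFfin) hint hFm hlow
    rw [setIntegral_const, smul_eq_mul] at h1
    have h2 : 1 / 2 ≤ volume.real F := by
      have := ENNReal.toReal_mono hFfin hvol
      rwa [ENNReal.toReal_ofReal (by norm_num)] at this
    nlinarith
  obtain ⟨χ, hχ1, hχ2, hχ3, hχ4, hχ5⟩ := hAppr (hh m r g) C hhm hhb F hFm hFbd (δ₁ / 2) (by positivity)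
  obtain ⟨Φ, hΦ1, hΦ2, hΦ3, hΦ4⟩ := hA m χ hχ1 hχ3 hχ4 ρ r hρ hρr
  have hBB := hB m hm L ρ₀ g hL hρ₀ hg χ hχ1 hχ2 r hr0
  have htr : ∫ x in Eg m g 9, LinearMap.trace ℝ (XX m) (fderiv ℝ Φ x : XX m →ₗ[ℝ] XX m) =
      ∫ x in Eg m g 9, dv m r χ x :=
    setIntegral_congr_fun (Eg_meas m hgc 9) fun x hx => hΦ4 x (hsub hx)
  have hper : ENNReal.ofReal (∫ x in Eg m g 9, LinearMap.trace ℝ (XX m) (fderiv ℝ Φ x : XX m →ₗ[ℝ] XX m)) ≤
      per (Eg m g 9) := by
    unfold per
    exact le_iSup_of_le Φ (le_iSup_of_le hΦ1 (le_iSup_of_le hΦ2 (le_iSup_of_le hΦ3 le_rfl)))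
  refine le_trans (ENNReal.ofReal_le_ofReal ?_) hper
  rw [htr, hBB]
  linarith

end Pool.Agent.Q251.PS
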